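import Pool.Agent.Q188.KN.Fin

/-!
# The Hopf sign in codimension two, for normal bundles of any signature

Let `n = 2 m` be any even dimension. The Gauss equation of a spacelike immersion of codimension two into
a pseudo-Riemannian space of constant curvature `-c` gives the curvature tensor `gauss2 a b d f g c`,
where `a, b, d` are the scalar products of a frame of the normal plane (of any signature). If the normal
plane is a Lorentz plane and the frame is a null frame (`a = d = 0`, `b = 1`), this is
`f ∧ g - c ⟨,⟩ ∧ ⟨,⟩ / 2` with the Kulkarni–Nomizu product `knp f g` of two arbitrary symmetric forms (this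
contains the hypersurfaces of all space forms and the conformally flat metrics).

The main point is (1): if the Kulkarni–Nomizu product `h ∧ k` of two arbitrary symmetric forms has
nonpositive sectional values, it is nonpositive on ALL bivectors. If some linear combination of `h` and `k`
is positive definite, both have a common orthogonal basis; the other cases (pencils of Lorentzian type
with Jordan blocks, degenerate pencils) are reduced to this one.
-/

set_option autoImplicit false

namespace Pool.Agent.Results.MP_5a30bb_gt.CodimensionTwo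

open Pool.Agent.W666.GB Pool.Agent.TH598.GV Pool.Agent.Q188.KN MeasureTheory Module

/-- `R` is given by the Gauss equation in codimension two, for a normal plane with scalar product of
any signature (possibly degenerate) and ambient curvature `-c`, and the extrinsic sectional curvatures
are nonpositive. -/
def CodimTwo {V : Type} [NormedAddCommGroup V] [InnerProductSpace ℝ V] (R : V → V → V → V → ℝ)
    (c : ℝ) : Prop :=
  ∃ (a b d : ℝ) (f g : V → V → ℝ), SymForm f ∧ SymForm g ∧
    (∀ x y, gauss2 a b d f g 0 x y x y ≤ 0) ∧ R = gauss2 a b d f g c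

/-- All complex sectional curvatures of `R` are at most `-κ`, and on the vectors of ONE hyperplane `S`,
`R` is the sum of a Kulkarni–Nomizu product with nonpositive sectional values on `S` and of a tensor
which is nonpositive on the bivectors of `S`. -/
def HyperTwo {V : Type} [NormedAddCommGroup V] [InnerProductSpace ℝ V] (m : ℕ)
    (R : V → V → V → V → ℝ) (κ : ℝ) : Prop :=
  CxNonpos (shiftT R κ) ∧ ∃ (S : Submodule ℝ V) (f g : V → V → ℝ) (T : V → V → V → V → ℝ),
    finrank ℝ S + 1 = 2 * m ∧ SymForm f ∧ SymForm g ∧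
      (∀ x ∈ S, ∀ y ∈ S, knp f g x y x y ≤ 0) ∧ OpNonposOn T S ∧
      ∀ x ∈ S, ∀ y ∈ S, ∀ z ∈ S, ∀ w ∈ S, R x y z w = knp f g x y z w + T x y z w

/-- `R` is the Kulkarni–Nomizu product of two symmetric forms and has negative sectional curvatures. -/
def NegProduct {V : Type} [NormedAddCommGroup V] [InnerProductSpace ℝ V]
    (R : V → V → V → V → ℝ) : Prop :=
  ∃ f g : V → V → ℝ, SymForm f ∧ SymForm g ∧ R = knp f g ∧
    ∀ x y, LinearIndependent ℝ ![x, y] → R x y x y < 0

/-- (1) Kulkarni–Nomizu products with nonpositive sectional values are nonpositive on bivectors. -/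
def Operator : Prop :=
  ∀ (V : Type) [NormedAddCommGroup V] [InnerProductSpace ℝ V] [FiniteDimensional ℝ V]
    (f g : V → V → ℝ), SymForm f → SymForm g → (∀ x y, knp f g x y x y ≤ 0) →
    ∀ (n : ℕ) (a b : Fin n → V), ∑ i, ∑ j, knp f g (a i) (b i) (a j) (b j) ≤ 0

/-- (2) Codimension two, normal plane of any signature. -/
def Pointwise : Prop :=
  ∀ (m : ℕ) (V : Type) [NormedAddCommGroup V] [InnerProductSpace ℝ V]
    (e : OrthonormalBasis (Fin m × Bool) ℝ V) (R : V → V → V → V → ℝ) (c : ℝ), 0 ≤ c →
    CodimTwo R c → roundGB m c ≤ (-1) ^ m * gbc e R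

/-- (3) The strict sign for negatively curved Kulkarni–Nomizu products. -/
def Strict : Prop :=
  ∀ (m : ℕ) (V : Type) [NormedAddCommGroup V] [InnerProductSpace ℝ V]
    (e : OrthonormalBasis (Fin m × Bool) ℝ V) (R : V → V → V → V → ℝ), 2 ≤ m →
    NegProduct R → 0 < (-1) ^ m * gbc e R

/-- (4) The structure on one hyperplane only. -/
def OneHyperplane : Prop :=
  ∀ (m : ℕ) (V : Type) [NormedAddCommGroup V] [InnerProductSpace ℝ V]
    (e : OrthonormalBasis (Fin m × Bool) ℝ V) (R : V → V → V → V → ℝ) (κ : ℝ), AlgCurv R →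
    0 ≤ κ → HyperTwo m R κ → roundGB m κ ≤ (-1) ^ m * gbc e R

/-- (5) The integrals, for fields of curvature tensors. -/
def Integrated : Prop :=
  ∀ (m : ℕ) (M : Type) [MeasurableSpace M] (μ : Measure M) (K : CurvField m M) (c : M → ℝ),
    (∀ p, 0 ≤ c p ∧ (CodimTwo (K.R p) (c p) ∨ HyperTwo m (K.R p) (c p))) →
      0 ≤ (-1) ^ m * ∫ p, K.gb p ∂μ ∧
      (Integrable K.gb μ → Integrable (fun p => roundGB m (c p)) μ →
        ∫ p, roundGB m (c p) ∂μ ≤ (-1) ^ m * ∫ p, K.gb p ∂μ) ∧
      (Integrable K.gb μ → 2 ≤ m → μ {p | NegProduct (K.R p)} ≠ 0 →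
        0 < (-1) ^ m * ∫ p, K.gb p ∂μ)

/-- **The Hopf sign in codimension two, for normal bundles of any signature.** -/
theorem result : Operator ∧ Pointwise ∧ Strict ∧ OneHyperplane ∧ Integrated := by
  have h2 : Pointwise := by
    rintro m V _ _ e R c hc ⟨a, b, d, f, g, hf, hg, hs, rfl⟩
    exact gauss2_bound e hf hg hc hs
  have h3 : Strict := by
    rintro m V _ _ e R hm ⟨f, g, hf, hg, rfl, hs⟩
    exact strict2 e hf hg hm hs
  have h4 : OneHyperplane := by
    rintro m V _ _ e R κ hR hκ ⟨hC, S, f, g, T, hS, hf, hg, hs, hT, hRT⟩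
    exact hyper2 e hR hκ hC S hS hf hg hs hT hRT
  refine ⟨?_, h2, h3, h4, ?_⟩
  · intro V _ _ _ f g hf hg hs n a b
    exact op2 hf hg hs n a b
  · intro m M _ μ K c h
    have h1 : ∀ p, roundGB m (c p) ≤ (-1) ^ m * K.gb p := fun p => by
      rcases (h p).2 with h5 | h5
      · exact h2 m _ (K.e p) (K.R p) (c p) (h p).1 h5
      · exact h4 m _ (K.e p) (K.R p) (c p) (K.curv p) (h p).1 h5
    have h0 : ∀ p, 0 ≤ (-1) ^ m * K.gb p := fun p => (roundGB_nonneg' m (h p).1).trans (h1 p)
    refine ⟨?_, fun hi hi' => ?_, fun hi hm hμ => ?_⟩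
    · rw [← integral_const_mul]
      exact integral_nonneg h0
    · rw [← integral_const_mul]
      exact integral_mono hi' (hi.const_mul _) h1
    · rw [← integral_const_mul, integral_pos_iff_support_of_nonneg h0 (hi.const_mul _)]
      refine lt_of_lt_of_le (pos_iff_ne_zero.2 hμ) (measure_mono ?_)
      intro p hp
      exact (h3 m _ (K.e p) (K.R p) hm hp).ne'

end Pool.Agent.Results.MP_5a30bb_gt.CodimensionTwo
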