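import Pool.Agent.Q61.HP.Fin

/-!
# The Hopf sign for curvature tensors within `c / √n` of `-(1/2) h ∧ h`

Let `n = 2 m`. For an inner product `h` on the tangent space (unrelated to the metric) the tensor
`-(1/2) h ∧ h` is the curvature tensor of a spacelike hypersurface of Minkowski space with second
fundamental form `h`; for `h = √κ g` it is the tensor of constant curvature `-κ`; its sectional
curvatures can have any ratio.

If `E` is within the relative error `ε ≤ 3·10⁻⁷ / √n` of `-(1/2) h ∧ h` on all two-planes
(`HClose`), and `R = E - (1/2) ∑ k_j ∧ k_j` with any number of nonnegative symmetric forms `k_j`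
(for instance squares of decomposable two-forms), then the Gauss–Bonnet–Chern integrand of `R` has
the Hopf sign, and its absolute value is at least `4 / 5` of that of `-(1/2) h ∧ h`, up to the
factor `(1 - ε) ^ m`. The class of these `R` contains the curvature tensors whose sectional
curvatures lie in `[-b, -a]` with `b - a ≤ (3·10⁻⁷ / √n) (a + b)`; all classical pinching
conditions for the sign have the form `b - a ≤ (C / n) b`. The sign of the integral follows.

The case `h = g`, without the forms `k_j`, is `sec_pinched` in `Pool/Agent/W666/GB/Sec.lean`, a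
development of the starting repository; its moment method is used here through `near_close`.
-/

set_option autoImplicit false

namespace Pool.Agent.Results.MP_5a30bb_gt.InverseSqrtPinching

open Pool.Agent.W666.GB Pool.Agent.Y489.SM Pool.Agent.Q61.HP MeasureTheory

theorem result (m : ℕ) (hm : 0 < m) :
    -- the integrand of a tensor of the class: sign and lower bound
    (∀ (V : Type) [NormedAddCommGroup V] [InnerProductSpace ℝ V]
      (e : OrthonormalBasis (Fin m × Bool) ℝ V) (E : V → V → V → V → ℝ) (h : V → V → ℝ)
      (ε : ℝ) (q : ℕ) (k : Fin q → V → V → ℝ), AlgCurv E → PosForm h →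
      0 ≤ ε → ε ≤ 3 / 10 ^ 7 / Real.sqrt (2 * m) → HClose h ε E → (∀ j, SemiForm (k j)) →
        0 < (gram e h).det * roundGB m (1 - ε) ∧
        4 / 5 * ((gram e h).det * roundGB m (1 - ε)) ≤ (-1) ^ m * gbc e (sumH E k)) ∧
    -- pinched sectional curvatures belong to the class
    (∀ (V : Type) [NormedAddCommGroup V] [InnerProductSpace ℝ V]
      (_ : OrthonormalBasis (Fin m × Bool) ℝ V) (R : V → V → V → V → ℝ) (a b : ℝ),
      AlgCurv R → 0 < a → a ≤ b → b - a ≤ 3 / 10 ^ 7 / Real.sqrt (2 * m) * (a + b) →
      SecIn R (-b) (-a) → HopfClass m R) ∧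
    -- the sign of the integral
    (∀ (M : Type) [MeasurableSpace M] (μ : Measure M) (K : CurvField m M),
      (∀ p, HopfClass m (K.R p)) →
        0 ≤ (-1) ^ m * ∫ p, K.gb p ∂μ ∧
        (Integrable K.gb μ → μ ≠ 0 → 0 < (-1) ^ m * ∫ p, K.gb p ∂μ)) := by
  refine ⟨?_, ?_, ?_⟩
  · intro V _ _ e E h ε q k hE hh hε hε' hs hk
    obtain ⟨h1, h2⟩ := class_bound e hm hE hh hε hε' hs k hk
    refine ⟨mul_pos h1 (Pool.Agent.W666.GB.roundGB_pos ?_), h2⟩
    have := eps_lt hm hε'
    linarith
  · intro V _ _ e R a b hR ha hab hp hs
    exact (pinched_ab e hm hR ha hab hp hs).1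
  · intro M _ μ K h
    exact field_class μ hm K h

end Pool.Agent.Results.MP_5a30bb_gt.InverseSqrtPinching
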