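import Pool.Agent.Q188.Hopf.Ex

/-!
# The Hopf sign in dimension `n = 2 m` for negative curvature with pinching `1 - 3 / (n - 1)`

Positivity of the curvature operator (hence the sign of the Gauss–Bonnet–Chern integrand) is
classical for sectional curvatures in `[-b, -a]` with `a / b ≥ 1 - 3 / (n + 1)`; for weaker pinching the
curvature operator may be indefinite. Here the sign is proved for `a / b ≥ 1 - 3 / (n - 1)`
(`4 / 7` instead of `2 / 3` in dimension eight), and for a condition on ONE hyperplane of the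
tangent space and on the complex sectional curvatures. Part (4): in every even dimension `n ≥ 6` there are
curvature tensors in this range whose curvature operator is indefinite.

Proof. For pinched tensors the normal form of bivectors and Berger's inequality give the sign of the
curvature operator on the bivectors of a hyperplane (whose bivectors have rank at most `m - 1`) and
of the complex sectional curvatures; the theorem of `Pool/Agent/TH598/GV/` (a development of the
starting repository) then gives the sign of the integrand.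
-/

set_option autoImplicit false

namespace Pool.Agent.Results.MP_5a30bb_gt.PinchedAllDimensions

open Pool.Agent.W666.GB Pool.Agent.TH598.GV Pool.Agent.Q188.Hopf MeasureTheory Module

/-- the sectional curvatures of the planes of `S` lie in `[-b, -a]` -/
def SecOn {V : Type} [NormedAddCommGroup V] [InnerProductSpace ℝ V] (R : V → V → V → V → ℝ)
    (S : Submodule ℝ V) (a b : ℝ) : Prop :=
  ∀ x ∈ S, ∀ y ∈ S, ‖x‖ = 1 → ‖y‖ = 1 → inner ℝ x y = (0 : ℝ) → -b ≤ R x y x y ∧ R x y x y ≤ -a

/-- the pinching condition in dimension `2 m` -/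
def Pinch (m : ℕ) (a b : ℝ) : Prop := 0 ≤ a ∧ a ≤ b ∧ (2 * m - 1) * (b - a) ≤ 3 * b

theorem hyper {m : ℕ} {V : Type} [NormedAddCommGroup V] [InnerProductSpace ℝ V]
    (e : OrthonormalBasis (Fin m × Bool) ℝ V) {R : V → V → V → V → ℝ} (hR : AlgCurv R)
    {κ a b : ℝ} (hκ : 0 ≤ κ) (hab : Pinch m a b) (hC : CxNonpos (shiftT R κ)) (S : Submodule ℝ V)
    (hS : finrank ℝ S + 1 = 2 * m) (hs : SecOn R S a b) :
    roundGB m κ ≤ (-1) ^ m * gbc e R := by
  have : FiniteDimensional ℝ V := Module.Finite.of_basis e.toBasis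
  obtain ⟨ha, hab, hp⟩ := hab
  have hm : 1 ≤ m := by omega
  refine point_strong e hR hκ hC S hS (op_sub hR S hab hs (k := m - 1) (by omega) ?_)
  rw [Nat.cast_sub hm]
  push_cast
  linarith

theorem pinched {m : ℕ} {V : Type} [NormedAddCommGroup V] [InnerProductSpace ℝ V]
    (e : OrthonormalBasis (Fin m × Bool) ℝ V) {R : V → V → V → V → ℝ} (hR : AlgCurv R)
    {a b : ℝ} (hm : 3 ≤ m) (hab : Pinch m a b) (hs : SecIn R (-b) (-a)) :
    roundGB m ((5 * a - 2 * b) / 3) ≤ (-1) ^ m * gbc e R := by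
  have hfin : FiniteDimensional ℝ V := Module.Finite.of_basis e.toBasis
  have hcard : finrank ℝ V = 2 * m := by
    rw [finrank_eq_card_basis e.toBasis, Fintype.card_prod, Fintype.card_fin, Fintype.card_bool,
      mul_comm]
  have hmR : (3 : ℝ) ≤ m := by exact_mod_cast hm
  have h1 : 0 ≤ (5 * a - 2 * b) / 3 := by
    obtain ⟨ha, hab', hp⟩ := hab
    have : 5 * (b - a) ≤ 3 * b := by nlinarith
    linarith
  obtain ⟨S, hS⟩ : ∃ S : Submodule ℝ V, finrank ℝ S = 2 * m - 1 := by
    have i0 : Fin m × Bool := (⟨0, by omega⟩, false)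
    refine ⟨(ℝ ∙ e i0)ᗮ, ?_⟩
    have h2 := Submodule.finrank_add_finrank_orthogonal (K := ℝ ∙ e i0)
    have h3 : finrank ℝ (ℝ ∙ e i0) = 1 :=
      finrank_span_singleton (by
        intro h0
        have := e.orthonormal.1 i0
        rw [h0, norm_zero] at this
        exact zero_ne_one this)
    omega
  exact hyper e hR h1 hab (cx_of_sec hR hab.2.1 hs) S (by omega)
    (fun x _ y _ hx hy hxy => hs x y hx hy hxy)

theorem result :
    -- (1) pinching on one hyperplane, complex sectional curvatures at most `-κ`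
    (∀ (m : ℕ) (V : Type) [NormedAddCommGroup V] [InnerProductSpace ℝ V]
      (e : OrthonormalBasis (Fin m × Bool) ℝ V) (R : V → V → V → V → ℝ) (κ a b : ℝ),
      AlgCurv R → 0 ≤ κ → CxNonpos (shiftT R κ) → Pinch m a b →
      ∀ S : Submodule ℝ V, finrank ℝ S + 1 = 2 * m → SecOn R S a b →
        roundGB m κ ≤ (-1) ^ m * gbc e R) ∧
    -- (2) pinched sectional curvatures
    (∀ (m : ℕ) (V : Type) [NormedAddCommGroup V] [InnerProductSpace ℝ V]
      (e : OrthonormalBasis (Fin m × Bool) ℝ V) (R : V → V → V → V → ℝ) (a b : ℝ),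
      AlgCurv R → 3 ≤ m → Pinch m a b → SecIn R (-b) (-a) →
        roundGB m ((5 * a - 2 * b) / 3) ≤ (-1) ^ m * gbc e R ∧
        (4 ≤ m → 0 < a → 0 < (-1) ^ m * gbc e R)) ∧
    -- (3) the integral, for fields of curvature tensors
    (∀ (m : ℕ) (M : Type) [MeasurableSpace M] (μ : Measure M) (K : CurvField m M) (a b : M → ℝ),
      3 ≤ m → (∀ p, Pinch m (a p) (b p) ∧ SecIn (K.R p) (-(b p)) (-(a p))) →
        0 ≤ (-1) ^ m * ∫ p, K.gb p ∂μ ∧
        (Integrable K.gb μ → 4 ≤ m → μ {p | 0 < a p} ≠ 0 → 0 < (-1) ^ m * ∫ p, K.gb p ∂μ)) ∧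
    -- (4) the curvature operator can be indefinite under the hypotheses of (2), for every `m`
    (∀ m : ℕ, 3 ≤ m → Pinch m (2 * m - 4) (2 * m - 1) ∧
      ∃ R : EuclideanSpace ℝ (Fin m × Bool) → EuclideanSpace ℝ (Fin m × Bool) →
          EuclideanSpace ℝ (Fin m × Bool) → EuclideanSpace ℝ (Fin m × Bool) → ℝ,
        AlgCurv R ∧ SecIn R (-(2 * m - 1)) (-(2 * m - 4)) ∧ ¬ OpNonposOn R ⊤) := by
  have hpos : ∀ (m : ℕ) (a b : ℝ), 4 ≤ m → 0 < a → Pinch m a b → 0 < (5 * a - 2 * b) / 3 := by
    rintro m a b hm ha ⟨-, hab, hp⟩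
    have hmR : (4 : ℝ) ≤ m := by exact_mod_cast hm
    have : 7 * (b - a) ≤ 3 * b := by nlinarith
    linarith
  refine ⟨?_, ?_, ?_, ?_⟩
  · intro m V _ _ e R κ a b hR hκ hC hab S hS hs
    exact hyper e hR hκ hab hC S hS hs
  · intro m V _ _ e R a b hR hm hab hs
    have h1 := pinched e hR hm hab hs
    exact ⟨h1, fun h4 ha => (roundGB_pos' m (hpos m a b h4 ha hab)).trans_le h1⟩
  · intro m M _ μ K a b hm h
    have h1 : ∀ p, roundGB m ((5 * a p - 2 * b p) / 3) ≤ (-1) ^ m * K.gb p := fun p =>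
      pinched (K.e p) (K.curv p) hm (h p).1 (h p).2
    have h0 : ∀ p, 0 ≤ (-1) ^ m * K.gb p := fun p => by
      refine (roundGB_nonneg' m ?_).trans (h1 p)
      obtain ⟨ha, hab', hp⟩ := (h p).1
      have hmR : (3 : ℝ) ≤ m := by exact_mod_cast hm
      have : 5 * (b p - a p) ≤ 3 * b p := by nlinarith
      linarith
    refine ⟨?_, fun hi h4 hμ => ?_⟩
    · rw [← integral_const_mul]
      exact integral_nonneg h0
    · rw [← integral_const_mul, integral_pos_iff_support_of_nonneg h0 (hi.const_mul _)]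
      refine lt_of_lt_of_le (pos_iff_ne_zero.2 hμ) (measure_mono ?_)
      intro p hp
      exact ((roundGB_pos' m (hpos m (a p) (b p) h4 hp (h p).1)).trans_le (h1 p)).ne'
  · intro m hm
    have hmR : (3 : ℝ) ≤ m := by exact_mod_cast hm
    refine ⟨⟨by linarith, by linarith, by linarith⟩, exR (2 * m - 1), exR_curv _, ?_,
      exR_op _ (by linarith) (by omega)⟩
    have h1 := exR_sec (m := m) (2 * m - 1)
    have h2 : (2 * (m : ℝ) - 1 - 3) = 2 * m - 4 := by ring
    rw [h2] at h1
    exact h1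

end Pool.Agent.Results.MP_5a30bb_gt.PinchedAllDimensions
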