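import Pool.Agent.Q116.HT.Cl

/-!
# The Hopf sign for torus invariant curvature tensors

Let `n = 2 m`. An algebraic curvature tensor `R` on a Euclidean space of dimension `2 m` is called
torus invariant (`TorusInv m R`) if for some decomposition into `m` orthogonal planes it is invariant
under the rotations by `90` degrees in each of the planes (for instance, if it is invariant under a
maximal torus of `SO(2 m)`). Examples: curvature tensors of the real and complex hyperbolic spaces and
of their products, all `U(m)`-invariant tensors, and `-∑ skewCurv A_s` for any number of commuting skew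
forms.

`StrNonpos δ R`: for some alternating `4`-form `ω`, the curvature operator of `R + ω` is at most `-δ`
(strong nonpositivity; for `δ = 0` it means `-R = ∑ skewCurv A_s` for some skew forms `A_s`, and it is
strictly weaker than nonpositivity of the curvature operator of `R`). For general `R` this does not
imply the Hopf sign from dimension six on (part (4) of the starting file `TwoSkewForms`).

(1) In every even dimension, a torus invariant strongly nonpositive `R` has the Hopf sign, with the
sharp bound `(-1)^m G ≥ roundGB m δ`.
(2) In dimension six, it is enough that the sectional curvatures are at most `-δ`.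
(3) Any number of skew forms with common invariant planes, all even dimensions.
(4) The integrals for fields of curvature tensors.

Proof of (1): for torus invariant tensors the Gauss–Bonnet–Chern integrand is a formal Gaussian mean
`E ∏_i (X_i1² + X_i2² + X_i3² + X_i4²)`, with the same covariance (not positive semidefinite) for the
first three species. After splitting off the positive semidefinite part as a true Gaussian mean over
real shifts, the positivity is proved by a Heilmann–Lieb argument (zeros of matching polynomials).
-/

set_option autoImplicit false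

namespace Pool.Agent.Results.MP_5a30bb_gt.TorusInvariant

open Pool.Agent.W666.GB Pool.Agent.W669.HD Pool.Agent.Y195.HF Q116.HT MeasureTheory

/-- (1) All even dimensions, strongly nonpositive tensors. -/
def AllDimensions : Prop :=
  ∀ (m : ℕ) (V : Type) [NormedAddCommGroup V] [InnerProductSpace ℝ V]
    (e : OrthonormalBasis (Fin m × Bool) ℝ V) (R : V → V → V → V → ℝ) (δ : ℝ),
    AlgCurv R → 0 ≤ δ → TorusInv m R → StrNonpos δ R → roundGB m δ ≤ (-1) ^ m * gbc e R

/-- (2) Dimension six, sectional curvatures at most `-δ`. -/
def DimSix : Prop :=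
  ∀ (V : Type) [NormedAddCommGroup V] [InnerProductSpace ℝ V]
    (e : OrthonormalBasis (Fin 3 × Bool) ℝ V) (R : V → V → V → V → ℝ) (δ : ℝ),
    AlgCurv R → 0 ≤ δ → TorusInv 3 R → (∀ x y, R x y x y ≤ -(δ * unitT x y x y)) →
      roundGB 3 δ ≤ (-1) ^ 3 * gbc e R

/-- (3) Any number of skew forms `A_s` which are linear combinations of the area forms of the same
`m` orthogonal planes: `R = -(δ · 1 + ∑ skewCurv A_s)`. -/
def Commuting : Prop :=
  ∀ (m n : ℕ) (V : Type) [NormedAddCommGroup V] [InnerProductSpace ℝ V]
    (e : OrthonormalBasis (Fin m × Bool) ℝ V) (A : Fin n → V → V → ℝ) (δ : ℝ), 0 ≤ δ →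
    (∀ s, Toral e (A s)) →
      AlgCurv (manyR δ A) ∧ roundGB m δ ≤ (-1) ^ m * gbc e (manyR δ A)

/-- the class of tensors in (1) and (2) -/
def HopfTorus {V : Type} [NormedAddCommGroup V] [InnerProductSpace ℝ V] (m : ℕ)
    (R : V → V → V → V → ℝ) (δ : ℝ) : Prop :=
  TorusInv m R ∧ (StrNonpos δ R ∨ (m = 3 ∧ ∀ x y, R x y x y ≤ -(δ * unitT x y x y)))

/-- (4) The integrals, for fields of curvature tensors. -/
def Integrated : Prop :=
  ∀ (m : ℕ) (M : Type) [MeasurableSpace M] (μ : Measure M) (K : CurvField m M) (c : M → ℝ),
    (∀ p, 0 ≤ c p ∧ HopfTorus m (K.R p) (c p)) →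
      0 ≤ (-1) ^ m * ∫ p, K.gb p ∂μ ∧
      (Integrable K.gb μ → Integrable (fun p => roundGB m (c p)) μ →
        ∫ p, roundGB m (c p) ∂μ ≤ (-1) ^ m * ∫ p, K.gb p ∂μ)

/-- **The Hopf sign for torus invariant curvature tensors.** -/
theorem result : AllDimensions ∧ DimSix ∧ Commuting ∧ Integrated := by
  have h1 : AllDimensions := fun m V _ _ e R δ hR hδ hI h => torus_bound' e hR hδ hI h
  have h2 : DimSix := fun V _ _ e R δ hR hδ hI h => six_bound' e hR hδ hI h
  refine ⟨h1, h2, ?_, ?_⟩
  · intro m n V _ _ e A δ hδ hA
    exact ⟨manyR_curv δ fun s => (hA s).skew, many_bound e hδ hA⟩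
  · intro m M _ μ K c h
    have hb : ∀ p, roundGB m (c p) ≤ (-1) ^ m * K.gb p := by
      intro p
      obtain ⟨h0, hI, hs | ⟨hm, hs⟩⟩ := h p
      · exact h1 m _ (K.e p) (K.R p) (c p) (K.curv p) h0 hI hs
      · subst hm
        exact h2 _ (K.e p) (K.R p) (c p) (K.curv p) h0 hI hs
    have h0 : ∀ p, 0 ≤ (-1) ^ m * K.gb p := fun p => (roundGB_nonneg (h p).1).trans (hb p)
    refine ⟨?_, fun hi hi' => ?_⟩
    · rw [← integral_const_mul]
      exact integral_nonneg h0
    · rw [← integral_const_mul]
      exact integral_mono hi' (hi.const_mul _) hb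

end Pool.Agent.Results.MP_5a30bb_gt.TorusInvariant
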